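import Pool.Agent.H78.STN.Stmts2

/-!
# Board STO, row LEA: the least element of a cycle is even and not divisible by three
-/

set_option autoImplicit false

namespace Pool.STN

theorem lea_even (x : ℕ) (h : x % 3 = 0) : F x % 2 = 0 := by
  unfold F
  rw [if_pos h]
  omega

theorem LEA_thm (h1 : TRIStmt) : LEAStmt := by
  intro m k hm hk hF
  obtain ⟨h2, hper, hdn, hup, -, -⟩ := h1 m k hm hk hF
  have hne : (Set.range fun i => F^[i] m).Nonempty := ⟨F^[0] m, ⟨0, rfl⟩⟩
  obtain ⟨i0, hi0⟩ : sInf (Set.range fun i => F^[i] m) ∈ Set.range fun i => F^[i] m :=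
    Nat.sInf_mem hne
  have hi0' : F^[i0] m = sInf (Set.range fun i => F^[i] m) := hi0
  have hmin0 : ∀ j, F^[i0] m ≤ F^[j] m := by
    intro j
    rw [hi0']
    exact Nat.sInf_le ⟨j, rfl⟩
  obtain ⟨s, hs⟩ : ∃ s, i0 + k = s + 1 := ⟨i0 + k - 1, by omega⟩
  have hmin : ∀ j, F^[s + 1] m ≤ F^[j] m := by
    intro j
    rw [← hs, hper i0]
    exact hmin0 j
  have hs3 : F^[s] m % 3 = 0 := by
    by_contra hcon
    have := (hup s).2 hcon
    have := hmin s
    omega
  refine ⟨s + 1, hmin, h2 _, ?_, ?_⟩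
  · rw [Function.iterate_succ_apply']
    exact lea_even _ hs3
  · intro hcon
    have := (hdn (s + 1)).2 hcon
    have := hmin (s + 1 + 1)
    omega

end Pool.STN
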